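import Pool.Agent.Helper85.MU.FinalA

/-!
# MP_78e9a5_nt: Shafarevich finiteness for pure `ℤ`-motives with maximally unipotent monodromy

`Mot F S n w h` is the type of (models of) pure `ℤ`-motives over `F` of rank `n` and weight `w` with
Hodge types `h`, with pure good reduction outside `S` and semistable reduction in `S`. The
condition `M.Unip` says that `M` has maximally unipotent monodromy at all places over a prime `p₀`
in `S` (with the consequences of `p₀`-adic Hodge theory for `l = p₀`), or at some place over `p₀`
and at some place over `p₁` for two primes in `S`, the other places over `p₀` and `p₁` having the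
same property or pure good reduction.
-/

open NumberField MU

namespace Pool.Agent.Results.MP_78e9a5_nt.MaxUnipotentMotives

/-- There is a number `N`, depending on `F`, `S`, `n`, `w` and `h` only, such that every set `𝒯` of
pure `ℤ`-motives over `F` of rank `n`, weight `w` and Hodge types `h` with pure good reduction
outside `S`, semistable reduction in `S` and maximally unipotent monodromy has at most `N` members
up to isomorphism of the adelic realizations, and at most `N` members up to isomorphism if members
of `𝒯` with isomorphic adelic realizations are isogenous. -/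
theorem result (F : Type) [Field F] [NumberField F] (S : Finset ℕ) (hS : ∀ p ∈ S, p.Prime)
    (n w : ℕ) (h : Fin n → ℕ) :
    ∃ N : ℕ, ∀ 𝒯 : Set (Mot F S n w h), (∀ M ∈ 𝒯, M.Unip) →
      (∃ T : Finset (Mot F S n w h), (T : Set (Mot F S n w h)) ⊆ 𝒯 ∧ T.card ≤ N ∧
        ∀ M ∈ 𝒯, ∃ M' ∈ T, M.AdelicIso M') ∧
      ((∀ M ∈ 𝒯, ∀ M' ∈ 𝒯, M.AdelicIso M' → M.Isog M') →
        ∃ T : Finset (Mot F S n w h), (T : Set (Mot F S n w h)) ⊆ 𝒯 ∧ T.card ≤ N ∧
          ∀ M ∈ 𝒯, ∃ M' ∈ T, M.Iso M') :=
  finiteness_unip all_MIX hS n w h

end Pool.Agent.Results.MP_78e9a5_nt.MaxUnipotentMotives
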